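import Pool.Agent.ZPK.StmtsT

/-!
# Row LNC: all non critical states
-/

set_option autoImplicit false

namespace Pool.Agent.ZPK.H75

open Polynomial Pool.Agent.ZPT Pool.Agent.ZP3 Pool.Agent.ZPK

namespace LNC

theorem dsymm {K : Type} [NormedField K] {q q' : K} (h : Dep q q') : Dep q' q := by
  obtain ⟨a, b, ha, hb, h⟩ := h
  exact ⟨b, a, hb, ha, h.symm⟩

theorem dtrans {K : Type} [NormedField K] {q q' q'' : K} (h : Dep q q') (h' : Dep q' q'') :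
    Dep q q'' := by
  obtain ⟨a, b, ha, hb, h⟩ := h
  obtain ⟨c, d, hc, hd, h'⟩ := h'
  refine ⟨a * c, d * b, Nat.mul_pos ha hc, Nat.mul_pos hd hb, ?_⟩
  calc q ^ (a * c) = (q ^ a) ^ c := pow_mul _ _ _
    _ = (q' ^ c) ^ b := by rw [h, ← pow_mul, ← pow_mul, mul_comm]
    _ = q'' ^ (d * b) := by rw [h', ← pow_mul]

theorem bsymm {M : ℕ} {K : Type} [NormedField K] {q q' : K} (h : Bd M q q') : Bd M q' q := by
  obtain ⟨a, b, ha, ha', hb, hb', h⟩ := h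
  exact ⟨b, a, hb, hb', ha, ha', h.symm⟩

theorem bmono {M N : ℕ} (hMN : M ≤ N) {K : Type} [NormedField K] {q q' : K} (h : Bd M q q') :
    Bd N q q' := by
  obtain ⟨a, b, ha, ha', hb, hb', h⟩ := h
  exact ⟨a, b, ha, ha'.trans hMN, hb, hb'.trans hMN, h⟩

theorem unif {ι : Type} [Fintype ι] (P : ι → ℕ → Prop)
    (hm : ∀ x M N, M ≤ N → P x M → P x N) (h : ∀ x, ∃ M, P x M) : ∃ M, ∀ x, P x M := by
  choose f hf using h
  exact ⟨Finset.univ.sup f, fun x => hm x _ _ (Finset.le_sup (Finset.mem_univ x)) (hf x)⟩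

end LNC

open LNC

theorem lnc (thb : ZP3.THBStmt) (num : NumStmt) (pbl : PblStmt) (pbs : PbsStmt) (rtl : RtlStmt)
    (rts : RtsStmt) (ttl : TtlStmt) (tts : TtsStmt) (rrr : RrrStmt) : LncStmt := by
  intro U hU p hp K _ _ _ _ _ hExt Log hLog L hL n b e A g E HB HG
  have hE : ∀ u, e u ≤ E := HB.zu.1
  have hE1 : 1 ≤ E := le_trans HB.eb (hE b)
  have hpl := HB.pl
  have hcd := HB.cd
  have hfo := HB.fo
  have hp5 : 5 ≤ p := by nlinarith [hE1]
  obtain ⟨-, hth0, hth1, -, -⟩ := thb p hp hp5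
  obtain ⟨hr1, hr0, hr2, hr⟩ := num p E hp hE1 hpl
  have hth20 : th p ^ 20 ≤ th p := by
    have := pow_le_pow_of_le_one hth0.le hth1.le (show 1 ≤ 20 by norm_num)
    simpa only [pow_one] using this
  have hth2 : th p ^ 2 ≤ th p := by
    have := pow_le_pow_of_le_one hth0.le hth1.le (show 1 ≤ 2 by norm_num)
    simpa only [pow_one] using this
  have hrt : rh p E < th p := lt_of_lt_of_le hr2 hth20
  have hpn : ‖(p : K)‖ = (p : ℝ)⁻¹ := by
    have h := hExt (p : ℚ)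
    rw [padicNorm.padicNorm_p hp.one_lt] at h
    simpa only [Rat.cast_natCast, Rat.cast_inv] using h
  have hp0 : (0 : ℝ) < (p : ℝ) := by exact_mod_cast hp.pos
  have hnL : ∀ (t : K) (a : ℕ), ‖t ^ a / (p : K)‖ = ‖t‖ ^ a * p := by
    intro t a
    rw [norm_div, norm_pow, hpn, div_inv_eq_mul]
  have hnS : ∀ (t : K) (a : ℕ), ‖(p : K) / t ^ a‖ = (p : ℝ)⁻¹ / ‖t‖ ^ a := by
    intro t a
    rw [norm_div, norm_pow, hpn]
  -- uniform constants
  obtain ⟨M1, H1⟩ := unif (fun (x : Fin n × Fin n × Fin n × Fin n) M =>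
    x.1 ≠ x.2.2.1 → x.2.1 ≠ x.2.2.2 → 1 ≤ e x.1 → 1 ≤ e x.2.2.1 → ∀ (t : K) (q : Fin n → K),
    0 < ‖t‖ → La p (e x.1) t → La p (e x.2.2.1) t → Sm p (e x.2.1) t → Sm p (e x.2.2.2) t →
    (∀ u ∈ ({x.1, x.2.1, x.2.2.1, x.2.2.2} : Set (Fin n)), At p U (e u) (A u) (g u) t (q u)) →
    Dep (q x.1) (q x.2.1) → Dep (q x.2.2.1) (q x.2.2.2) → Bd M (q x.1) (q x.2.1))
    (fun x M N hMN h a1 a2 a3 a4 t q b1 b2 b3 b4 b5 b6 b7 b8 =>
      bmono hMN (h a1 a2 a3 a4 t q b1 b2 b3 b4 b5 b6 b7 b8))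
    (fun x => by
      by_cases h : x.1 ≠ x.2.2.1 ∧ x.2.1 ≠ x.2.2.2 ∧ 1 ≤ e x.1 ∧ 1 ≤ e x.2.2.1
      · obtain ⟨M, hM⟩ := rrr U hU p E hp hE1 hpl K hExt Log hLog L hL n e A g hcd hE hfo HG
          x.1 x.2.1 x.2.2.1 x.2.2.2 h.1 h.2.1 h.2.2.1 h.2.2.2
        exact ⟨M, fun _ _ _ _ => hM⟩
      · exact ⟨0, fun a1 a2 a3 a4 => absurd ⟨a1, a2, a3, a4⟩ h⟩)
  obtain ⟨M2, H2⟩ := unif (fun (x : Fin n × Fin n × Fin n × Fin n) M =>
    x.2.2.1 ≠ x.2.2.2 → 1 ≤ e x.1 → 1 ≤ e x.2.2.1 → 1 ≤ e x.2.2.2 → ∀ (t : K) (q : Fin n → K),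
    0 < ‖t‖ → La p (e x.1) t → Sm p (e x.2.1) t → La p (e x.2.2.1) t → La p (e x.2.2.2) t →
    (∀ u ∈ ({x.1, x.2.1, x.2.2.1, x.2.2.2} : Set (Fin n)), At p U (e u) (A u) (g u) t (q u)) →
    Dep (q x.1) (q x.2.1) → Dep (q x.2.2.1) (q x.2.2.2) → Bd M (q x.2.2.1) (q x.2.2.2))
    (fun x M N hMN h a1 a2 a3 a4 t q b1 b2 b3 b4 b5 b6 b7 b8 =>
      bmono hMN (h a1 a2 a3 a4 t q b1 b2 b3 b4 b5 b6 b7 b8))
    (fun x => by
      by_cases h : x.2.2.1 ≠ x.2.2.2 ∧ 1 ≤ e x.1 ∧ 1 ≤ e x.2.2.1 ∧ 1 ≤ e x.2.2.2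
      · obtain ⟨M, hM⟩ := rtl U hU p E hp hE1 hpl K hExt Log hLog L hL n e A g hcd hE HG
          x.1 x.2.1 x.2.2.1 x.2.2.2 h.1 h.2.1 h.2.2.1 h.2.2.2
        exact ⟨M, fun _ _ _ _ => hM⟩
      · exact ⟨0, fun a1 a2 a3 a4 => absurd ⟨a1, a2, a3, a4⟩ h⟩)
  obtain ⟨M3, H3⟩ := unif (fun (x : Fin n × Fin n × Fin n × Fin n) M =>
    x.2.2.1 ≠ x.2.2.2 → 1 ≤ e x.1 → (1 ≤ e x.2.2.1 ∨ 1 ≤ e x.2.2.2) → ∀ (t : K) (q : Fin n → K),
    0 < ‖t‖ → La p (e x.1) t → Sm p (e x.2.1) t → Sm p (e x.2.2.1) t → Sm p (e x.2.2.2) t →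
    (∀ u ∈ ({x.1, x.2.1, x.2.2.1, x.2.2.2} : Set (Fin n)), At p U (e u) (A u) (g u) t (q u)) →
    Dep (q x.1) (q x.2.1) → Dep (q x.2.2.1) (q x.2.2.2) → Bd M (q x.2.2.1) (q x.2.2.2))
    (fun x M N hMN h a1 a2 a3 t q b1 b2 b3 b4 b5 b6 b7 b8 =>
      bmono hMN (h a1 a2 a3 t q b1 b2 b3 b4 b5 b6 b7 b8))
    (fun x => by
      by_cases h : x.2.2.1 ≠ x.2.2.2 ∧ 1 ≤ e x.1 ∧ (1 ≤ e x.2.2.1 ∨ 1 ≤ e x.2.2.2)
      · obtain ⟨M, hM⟩ := rts U hU p E hp hE1 hpl K hExt Log hLog L hL n e A g hcd hE HG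
          x.1 x.2.1 x.2.2.1 x.2.2.2 h.1 h.2.1 h.2.2
        exact ⟨M, fun _ _ _ => hM⟩
      · exact ⟨0, fun a1 a2 a3 => absurd ⟨a1, a2, a3⟩ h⟩)
  obtain ⟨M4, H4⟩ := unif (fun (x : Fin n × Fin n) M =>
    1 ≤ e x.1 → e x.1 ≤ e x.2 → ∀ t q₁ q₂ : K, 0 < ‖t‖ → La p (e x.1) t →
    ‖t ^ e x.1 / (p : K)‖ < th p → At p U (e x.1) (A x.1) (g x.1) t q₁ →
    At p U (e x.2) (A x.2) (g x.2) t q₂ → Dep q₁ q₂ → Bd M q₁ q₂)
    (fun x M N hMN h a1 a2 t q₁ q₂ b1 b2 b3 b4 b5 b6 =>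
      bmono hMN (h a1 a2 t q₁ q₂ b1 b2 b3 b4 b5 b6))
    (fun x => by
      by_cases h : 1 ≤ e x.1 ∧ e x.1 ≤ e x.2
      · obtain ⟨M, hM⟩ := pbl U hU p E hp hE1 hpl K hExt L hL (e x.1) (e x.2) (A x.1) (A x.2)
          (g x.1) (g x.2) (hcd _) (hcd _) h.1 h.2 (hE _)
        exact ⟨M, fun _ _ => hM⟩
      · exact ⟨0, fun a1 a2 => absurd ⟨a1, a2⟩ h⟩)
  obtain ⟨M5, H5⟩ := unif (fun (x : Fin n × Fin n) M =>
    ∀ t q₁ q₂ : K, 0 < ‖t‖ → ‖t‖ < 1 → Sm p (max (e x.1) (e x.2)) t →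
    ‖(p : K) / t ^ (max (e x.1) (e x.2))‖ < th p → At p U (e x.1) (A x.1) (g x.1) t q₁ →
    At p U (e x.2) (A x.2) (g x.2) t q₂ → Dep q₁ q₂ → Bd M q₁ q₂)
    (fun x M N hMN h t q₁ q₂ b1 b2 b3 b4 b5 b6 b7 =>
      bmono hMN (h t q₁ q₂ b1 b2 b3 b4 b5 b6 b7))
    (fun x => pbs U hU p hp hp5 K hExt L (max (e x.1) (e x.2)) (e x.1) (e x.2) (A x.1) (A x.2)
          (g x.1) (g x.2) (hcd _) (hcd _) rfl)
  intro i j k l hij hkl hil hik hjl h1 h2 h3
  set M : ℕ := max M1 (max M2 (max M3 (max M4 M5))) with hM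
  have hM1 : M1 ≤ M := le_max_left _ _
  have hM2 : M2 ≤ M := le_trans (le_max_left _ _) (le_max_right _ _)
  have hM3 : M3 ≤ M := le_trans (le_trans (le_max_left _ _) (le_max_right _ _)) (le_max_right _ _)
  have hM4 : M4 ≤ M := le_trans (le_trans (le_trans (le_max_left _ _) (le_max_right _ _))
    (le_max_right _ _)) (le_max_right _ _)
  have hM5 : M5 ≤ M := le_trans (le_trans (le_trans (le_max_right _ _) (le_max_right _ _))
    (le_max_right _ _)) (le_max_right _ _)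
  refine ⟨M, fun t q ht0 ht1 hcr hAt d1 d2 => ?_⟩
  have hA : ∀ u, (u = i ∨ u = j ∨ u = k ∨ u = l) → At p U (e u) (A u) (g u) t (q u) := by
    intro u hu
    apply hAt
    simpa only [Set.mem_insert_iff, Set.mem_singleton_iff] using hu
  have hst : ∀ u, (u = i ∨ u = j ∨ u = k ∨ u = l) →
      ((1 ≤ e u ∧ La p (e u) t) ∨ Sm p (e u) t) := by
    intro u hu
    have hc : ¬ Cr p (e u) t := by
      apply hcr
      simpa only [Set.mem_insert_iff, Set.mem_singleton_iff] using hu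
    rcases lt_trichotomy (‖t‖ ^ e u) ((p : ℝ)⁻¹) with h | h | h
    · left
      refine ⟨?_, h⟩
      by_contra h0
      have h0' : e u = 0 := by omega
      rw [h0', pow_zero] at h
      have : (p : ℝ)⁻¹ ≤ 1 := by
        apply inv_le_one_of_one_le₀
        exact_mod_cast hp.one_le
      linarith
    · exact absurd h hc
    · right; exact h
  -- pointwise facts
  have hA4 : ∀ x y z w, (x = i ∨ x = j ∨ x = k ∨ x = l) → (y = i ∨ y = j ∨ y = k ∨ y = l) →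
      (z = i ∨ z = j ∨ z = k ∨ z = l) → (w = i ∨ w = j ∨ w = k ∨ w = l) →
      ∀ u ∈ ({x, y, z, w} : Set (Fin n)), At p U (e u) (A u) (g u) t (q u) := by
    intro x y z w hx hy hz hw u hu
    simp only [Set.mem_insert_iff, Set.mem_singleton_iff] at hu
    rcases hu with rfl | rfl | rfl | rfl
    · exact hA _ hx
    · exact hA _ hy
    · exact hA _ hz
    · exact hA _ hw
  have FR : ∀ x y z w, (x = i ∨ x = j ∨ x = k ∨ x = l) → (y = i ∨ y = j ∨ y = k ∨ y = l) →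
      (z = i ∨ z = j ∨ z = k ∨ z = l) → (w = i ∨ w = j ∨ w = k ∨ w = l) → x ≠ z → y ≠ w →
      (1 ≤ e x ∧ La p (e x) t) → Sm p (e y) t → (1 ≤ e z ∧ La p (e z) t) → Sm p (e w) t →
      Dep (q x) (q y) → Dep (q z) (q w) → Bd M (q x) (q y) := by
    intro x y z w hx hy hz hw hxz hyw a1 a2 a3 a4 D1 D2
    exact bmono hM1 (H1 (x, y, z, w) hxz hyw a1.1 a3.1 t q ht0 a1.2 a3.2 a2 a4
      (hA4 x y z w hx hy hz hw) D1 D2)
  have FL : ∀ x y z w, (x = i ∨ x = j ∨ x = k ∨ x = l) → (y = i ∨ y = j ∨ y = k ∨ y = l) →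
      (z = i ∨ z = j ∨ z = k ∨ z = l) → (w = i ∨ w = j ∨ w = k ∨ w = l) → z ≠ w →
      (1 ≤ e x ∧ La p (e x) t) → Sm p (e y) t → (1 ≤ e z ∧ La p (e z) t) →
      (1 ≤ e w ∧ La p (e w) t) →
      Dep (q x) (q y) → Dep (q z) (q w) → Bd M (q z) (q w) := by
    intro x y z w hx hy hz hw hzw a1 a2 a3 a4 D1 D2
    exact bmono hM2 (H2 (x, y, z, w) hzw a1.1 a3.1 a4.1 t q ht0 a1.2 a2 a3.2 a4.2
      (hA4 x y z w hx hy hz hw) D1 D2)
  have FS : ∀ x y z w, (x = i ∨ x = j ∨ x = k ∨ x = l) → (y = i ∨ y = j ∨ y = k ∨ y = l) →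
      (z = i ∨ z = j ∨ z = k ∨ z = l) → (w = i ∨ w = j ∨ w = k ∨ w = l) → z ≠ w →
      (1 ≤ e z ∨ 1 ≤ e w) →
      (1 ≤ e x ∧ La p (e x) t) → Sm p (e y) t → Sm p (e z) t → Sm p (e w) t →
      Dep (q x) (q y) → Dep (q z) (q w) → Bd M (q z) (q w) := by
    intro x y z w hx hy hz hw hzw hor a1 a2 a3 a4 D1 D2
    exact bmono hM3 (H3 (x, y, z, w) hzw a1.1 hor t q ht0 a1.2 a2 a3 a4
      (hA4 x y z w hx hy hz hw) D1 D2)
  have PL : ∀ x y, (x = i ∨ x = j ∨ x = k ∨ x = l) → (y = i ∨ y = j ∨ y = k ∨ y = l) →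
      (1 ≤ e x ∧ La p (e x) t) → (1 ≤ e y ∧ La p (e y) t) →
      ‖t ^ (min (e x) (e y)) / (p : K)‖ < th p → Dep (q x) (q y) → Bd M (q x) (q y) := by
    intro x y hx hy a1 a2 a3 D
    rcases le_total (e x) (e y) with h | h
    · rw [min_eq_left h] at a3
      exact bmono hM4 (H4 (x, y) a1.1 h t (q x) (q y) ht0 a1.2 a3 (hA _ hx) (hA _ hy) D)
    · rw [min_eq_right h] at a3
      exact bsymm (bmono hM4 (H4 (y, x) a2.1 h t (q y) (q x) ht0 a2.2 a3 (hA _ hy) (hA _ hx)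
        (dsymm D)))
  have smax : ∀ x y : Fin n, Sm p (e x) t → Sm p (e y) t → Sm p (max (e x) (e y)) t := by
    intro x y a1 a2
    rcases le_total (e x) (e y) with h | h
    · rw [max_eq_right h]; exact a2
    · rw [max_eq_left h]; exact a1
  have lmin : ∀ x y : Fin n, La p (e x) t → La p (e y) t → La p (min (e x) (e y)) t := by
    intro x y a1 a2
    rcases le_total (e x) (e y) with h | h
    · rw [min_eq_left h]; exact a1
    · rw [min_eq_right h]; exact a2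
  have PS : ∀ x y, (x = i ∨ x = j ∨ x = k ∨ x = l) → (y = i ∨ y = j ∨ y = k ∨ y = l) →
      Sm p (e x) t → Sm p (e y) t →
      ‖(p : K) / t ^ (max (e x) (e y))‖ < th p → Dep (q x) (q y) → Bd M (q x) (q y) := by
    intro x y hx hy a1 a2 a3 D
    exact bmono hM5 (H5 (x, y) t (q x) (q y) ht0 ht1 (smax x y a1 a2) a3 (hA _ hx) (hA _ hy) D)
  -- separation of radii
  have sepL : ∀ a b : ℕ, 1 ≤ a → a ≤ E → a < b → La p a t → ‖t ^ b / (p : K)‖ < th p := by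
    intro a b ha haE hab hLa
    have htr : ‖t‖ ≤ rh p E := (hr ‖t‖ a ht0 ht1 ha haE).1 hLa
    rw [hnL]
    obtain ⟨c, rfl⟩ := Nat.exists_eq_add_of_lt hab
    have e1 : ‖t‖ ^ (a + c + 1) * (p : ℝ) = ‖t‖ ^ c * ‖t‖ * (‖t‖ ^ a * p) := by ring
    rw [e1]
    have e2 : ‖t‖ ^ a * (p : ℝ) ≤ 1 := by
      have h5 : ‖t‖ ^ a < (p : ℝ)⁻¹ := hLa
      calc ‖t‖ ^ a * (p : ℝ) ≤ (p : ℝ)⁻¹ * p := by
            apply mul_le_mul_of_nonneg_right h5.le hp0.le
        _ = 1 := inv_mul_cancel₀ hp0.ne'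
    have e3 : ‖t‖ ^ c ≤ 1 := pow_le_one₀ (norm_nonneg _) ht1.le
    have e4 : ‖t‖ ^ c * ‖t‖ * (‖t‖ ^ a * p) ≤ 1 * ‖t‖ * 1 := by
      apply mul_le_mul _ e2 (by positivity) (by positivity)
      exact mul_le_mul_of_nonneg_right e3 (norm_nonneg _)
    linarith
  have sepS : ∀ a b : ℕ, 1 ≤ b → b ≤ E → a < b → Sm p b t → th p ≤ ‖(p : K) / t ^ b‖ →
      ‖(p : K) / t ^ a‖ < th p := by
    intro a b hb hbE hab hSm hb2
    rw [hnS] at hb2 ⊢
    have htr : ‖t‖ ≤ rh p E := ((hr ‖t‖ b ht0 ht1 hb hbE).2.2 (le_trans hth2 hb2)).1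
    obtain ⟨c, rfl⟩ := Nat.exists_eq_add_of_lt hab
    have ht0' : ‖t‖ ≠ 0 := ht0.ne'
    have e1 : (p : ℝ)⁻¹ / ‖t‖ ^ a = ‖t‖ ^ c * ‖t‖ * ((p : ℝ)⁻¹ / ‖t‖ ^ (a + c + 1)) := by
      field_simp
      ring
    have e2 : (p : ℝ)⁻¹ / ‖t‖ ^ (a + c + 1) ≤ 1 := by
      have h5 : (p : ℝ)⁻¹ < ‖t‖ ^ (a + c + 1) := hSm
      rw [div_le_one (by positivity)]
      exact h5.le
    have e3 : ‖t‖ ^ c ≤ 1 := pow_le_one₀ (norm_nonneg _) ht1.le
    have e4 : ‖t‖ ^ c * ‖t‖ * ((p : ℝ)⁻¹ / ‖t‖ ^ (a + c + 1)) ≤ 1 * ‖t‖ * 1 := by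
      apply mul_le_mul _ e2 (by positivity) (by positivity)
      exact mul_le_mul_of_nonneg_right e3 (norm_nonneg _)
    rw [e1]
    linarith
  -- one pair large, the other small
  have LS : ∀ x y z w, (x = i ∨ x = j ∨ x = k ∨ x = l) → (y = i ∨ y = j ∨ y = k ∨ y = l) →
      (z = i ∨ z = j ∨ z = k ∨ z = l) → (w = i ∨ w = j ∨ w = k ∨ w = l) →
      (1 ≤ e x ∧ La p (e x) t) → (1 ≤ e y ∧ La p (e y) t) → Sm p (e z) t → Sm p (e w) t →
      Dep (q x) (q y) → Dep (q z) (q w) → Bd M (q x) (q y) ∨ Bd M (q z) (q w) := by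
    intro x y z w hx hy hz hw a1 a2 a3 a4 D1 D2
    by_cases c1 : ‖t ^ (min (e x) (e y)) / (p : K)‖ < th p
    · exact Or.inl (PL x y hx hy a1 a2 c1 D1)
    · right
      apply PS z w hz hw a3 a4 _ D2
      have hm1 : 1 ≤ min (e x) (e y) := le_min a1.1 a2.1
      have hmE : min (e x) (e y) ≤ E := le_trans (min_le_left _ _) (hE x)
      have hLm := lmin x y a1.2 a2.2
      have hSm := smax z w a3 a4
      have hlt : max (e z) (e w) < min (e x) (e y) := by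
        by_contra hcon
        have h6 : ‖t‖ ^ (max (e z) (e w)) ≤ ‖t‖ ^ (min (e x) (e y)) :=
          pow_le_pow_of_le_one (norm_nonneg _) ht1.le (not_lt.1 hcon)
        have h7 : ‖t‖ ^ (min (e x) (e y)) < (p : ℝ)⁻¹ := hLm
        have h8 : (p : ℝ)⁻¹ < ‖t‖ ^ (max (e z) (e w)) := hSm
        linarith
      rw [hnL] at c1
      have h9 := (hr ‖t‖ (min (e x) (e y)) ht0 ht1 hm1 hmE).2.1 hLm
        (le_trans hth2 (not_lt.1 c1)) _ hlt
      rw [hnS]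
      linarith
  have mi : i = i ∨ i = j ∨ i = k ∨ i = l := Or.inl rfl
  have mj : j = i ∨ j = j ∨ j = k ∨ j = l := Or.inr (Or.inl rfl)
  have mk : k = i ∨ k = j ∨ k = k ∨ k = l := Or.inr (Or.inr (Or.inl rfl))
  have ml : l = i ∨ l = j ∨ l = k ∨ l = l := Or.inr (Or.inr (Or.inr rfl))
  -- all large
  have LL : (1 ≤ e i ∧ La p (e i) t) → (1 ≤ e j ∧ La p (e j) t) → (1 ≤ e k ∧ La p (e k) t) →
      (1 ≤ e l ∧ La p (e l) t) →
      Bd M (q i) (q j) ∨ Bd M (q k) (q l) ∨ (j = k ∧ Bd M (q i) (q l)) := by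
    intro a1 a2 a3 a4
    by_cases c1 : ‖t ^ (min (e i) (e j)) / (p : K)‖ < th p
    · exact Or.inl (PL i j mi mj a1 a2 c1 d1)
    by_cases c2 : ‖t ^ (min (e k) (e l)) / (p : K)‖ < th p
    · exact Or.inr (Or.inl (PL k l mk ml a3 a4 c2 d2))
    have hm1 : 1 ≤ min (e i) (e j) := le_min a1.1 a2.1
    have hmE : min (e i) (e j) ≤ E := le_trans (min_le_left _ _) (hE i)
    have hm1' : 1 ≤ min (e k) (e l) := le_min a3.1 a4.1
    have hmE' : min (e k) (e l) ≤ E := le_trans (min_le_left _ _) (hE k)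
    have heq : min (e i) (e j) = min (e k) (e l) := by
      rcases lt_trichotomy (min (e i) (e j)) (min (e k) (e l)) with h | h | h
      · exact absurd (sepL _ _ hm1 hmE h (lmin i j a1.2 a2.2)) c2
      · exact h
      · exact absurd (sepL _ _ hm1' hmE' h (lmin k l a3.2 a4.2)) c1
    by_cases hc : (j = k → e i = min (e i) (e j) ∨ e l = min (e i) (e j))
    · exact absurd (ttl U hU p E hp hE1 hpl K hExt Log hLog L hL n e A g hcd hE HG
        (min (e i) (e j)) i j k l hij hkl hil hik hjl hm1 rfl heq hc t q ht0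
        (lmin i j a1.2 a2.2) hAt d1 d2) c1
    · obtain ⟨hjk, hor⟩ := Classical.not_imp.1 hc
      obtain ⟨hi, hl⟩ := not_or.1 hor
      right; right
      refine ⟨hjk, PL i l mi ml a1 a4 ?_ ?_⟩
      · apply sepL (min (e i) (e j)) _ hm1 hmE _ (lmin i j a1.2 a2.2)
        have h10 : min (e i) (e j) < e i := lt_of_le_of_ne (min_le_left _ _) (Ne.symm hi)
        have h11 : min (e i) (e j) < e l := by
          apply lt_of_le_of_ne _ (Ne.symm hl)
          rw [heq]; exact min_le_right _ _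
        exact lt_min h10 h11
      · apply dtrans d1
        rw [hjk]; exact d2
  have SS : Sm p (e i) t → Sm p (e j) t → Sm p (e k) t → Sm p (e l) t →
      Bd M (q i) (q j) ∨ Bd M (q k) (q l) ∨ (j = k ∧ Bd M (q i) (q l)) := by
    intro a1 a2 a3 a4
    by_cases c1 : ‖(p : K) / t ^ (max (e i) (e j))‖ < th p
    · exact Or.inl (PS i j mi mj a1 a2 c1 d1)
    by_cases c2 : ‖(p : K) / t ^ (max (e k) (e l))‖ < th p
    · exact Or.inr (Or.inl (PS k l mk ml a3 a4 c2 d2))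
    have hm1 : 1 ≤ max (e i) (e j) := by
      rcases h1 with h | h
      · exact le_trans h (le_max_left _ _)
      · exact le_trans h (le_max_right _ _)
    have hmE : max (e i) (e j) ≤ E := max_le (hE i) (hE j)
    have hm1' : 1 ≤ max (e k) (e l) := by
      rcases h2 with h | h
      · exact le_trans h (le_max_left _ _)
      · exact le_trans h (le_max_right _ _)
    have hmE' : max (e k) (e l) ≤ E := max_le (hE k) (hE l)
    have heq : max (e i) (e j) = max (e k) (e l) := by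
      rcases lt_trichotomy (max (e i) (e j)) (max (e k) (e l)) with h | h | h
      · exact absurd (sepS _ _ hm1' hmE' h (smax k l a3 a4) (not_lt.1 c2)) c1
      · exact h
      · exact absurd (sepS _ _ hm1 hmE h (smax i j a1 a2) (not_lt.1 c1)) c2
    by_cases hc : (j = k → e i = max (e i) (e j) ∨ e l = max (e i) (e j))
    · exact absurd (tts U hU p E hp hE1 hpl K hExt Log hLog L hL n e A g hcd hE HG
        (max (e i) (e j)) i j k l hij hkl hil hik hjl hm1 rfl heq hc t q ht0 ht1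
        (smax i j a1 a2) hAt d1 d2) c1
    · obtain ⟨hjk, hor⟩ := Classical.not_imp.1 hc
      obtain ⟨hi, hl⟩ := not_or.1 hor
      right; right
      refine ⟨hjk, PS i l mi ml a1 a4 ?_ ?_⟩
      · apply sepS _ (max (e i) (e j)) hm1 hmE _ (smax i j a1 a2) (not_lt.1 c1)
        have h10 : e i < max (e i) (e j) := lt_of_le_of_ne (le_max_left _ _) hi
        have h11 : e l < max (e i) (e j) := by
          apply lt_of_le_of_ne _ hl
          rw [heq]; exact le_max_right _ _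
        exact max_lt h10 h11
      · apply dtrans d1
        rw [hjk]; exact d2
  by_cases hjk : j = k
  · have d3 : Dep (q i) (q l) := by
      apply dtrans d1
      rw [hjk]; exact d2
    have d2' : Dep (q j) (q l) := by rw [hjk]; exact d2
    have hjl' : j ≠ l := hjl
    rcases hst i mi with a1 | a1 <;> rcases hst j mj with a2 | a2 <;>
      rcases hst l ml with a4 | a4
    · exact LL a1 a2 (hjk ▸ a2) a4
    · -- i, j large, l small
      left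
      exact FL j l i j mj ml mi mj hij a2 a4 a1 a2 d2' d1
    · -- i large, j small, l large
      right; right
      exact ⟨hjk, FL i j i l mi mj mi ml hil a1 a2 a1 a4 d1 d3⟩
    · -- i large, j, l small
      right; left
      exact FS i j k l mi mj mk ml hkl h2 a1 a2 (hjk ▸ a2) a4 d1 d2
    · -- i small, j large, l large
      right; left
      exact FL j i k l mj mi mk ml hkl a2 a1 (hjk ▸ a2) a4 (dsymm d1) d2
    · -- i small, j large, l small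
      right; right
      exact ⟨hjk, FS j i i l mj mi mi ml hil (h3 hjk) a2 a1 a1 a4 (dsymm d1) d3⟩
    · -- i, j small, l large
      left
      exact FS l j i j ml mj mi mj hij h1 a4 a2 a1 a2 (dsymm d2') d1
    · exact SS a1 a2 (hjk ▸ a2) a4
  · have h2w : ∀ {P Q R : Prop}, P ∨ Q → P ∨ Q ∨ R := fun h => h.elim Or.inl (fun h => Or.inr (Or.inl h))
    rcases hst i mi with a1 | a1 <;> rcases hst j mj with a2 | a2 <;>
      rcases hst k mk with a3 | a3 <;> rcases hst l ml with a4 | a4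
    · exact LL a1 a2 a3 a4
    · -- LLLS
      left; exact FL k l i j mk ml mi mj hij a3 a4 a1 a2 d2 d1
    · -- LLSL
      left; exact FL l k i j ml mk mi mj hij a4 a3 a1 a2 (dsymm d2) d1
    · exact h2w (LS i j k l mi mj mk ml a1 a2 a3 a4 d1 d2)
    · -- LSLL
      right; left; exact FL i j k l mi mj mk ml hkl a1 a2 a3 a4 d1 d2
    · -- LSLS
      left; exact FR i j k l mi mj mk ml hik hjl a1 a2 a3 a4 d1 d2
    · -- LSSL
      left; exact FR i j l k mi mj ml mk hil hjk a1 a2 a4 a3 d1 (dsymm d2)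
    · -- LSSS
      right; left; exact FS i j k l mi mj mk ml hkl h2 a1 a2 a3 a4 d1 d2
    · -- SLLL
      right; left; exact FL j i k l mj mi mk ml hkl a2 a1 a3 a4 (dsymm d1) d2
    · -- SLLS
      left; exact bsymm (FR j i k l mj mi mk ml hjk hil a2 a1 a3 a4 (dsymm d1) d2)
    · -- SLSL
      left; exact bsymm (FR j i l k mj mi ml mk hjl hik a2 a1 a4 a3 (dsymm d1) (dsymm d2))
    · -- SLSS
      right; left; exact FS j i k l mj mi mk ml hkl h2 a2 a1 a3 a4 (dsymm d1) d2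
    · -- SSLL
      exact h2w ((LS k l i j mk ml mi mj a3 a4 a1 a2 d2 d1).symm)
    · -- SSLS
      left; exact FS k l i j mk ml mi mj hij h1 a3 a4 a1 a2 d2 d1
    · -- SSSL
      left; exact FS l k i j ml mk mi mj hij h1 a4 a3 a1 a2 (dsymm d2) d1
    · exact SS a1 a2 a3 a4

end Pool.Agent.ZPK.H75
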