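import Pool.Agent.ZPK.StmtsL

/-! ZPK, row UNV (the values of an unramified field). -/

set_option autoImplicit false

namespace Pool.Agent.ZPK.H75

open Polynomial Pool.Agent.ZPT Pool.Agent.ZP3 Pool.Agent.ZPK

theorem unv (urr : ZP3.URRStmt) : UnvStmt := by
  intro p hp K _ _ _ hE L hL
  obtain ⟨F, hF, hFL⟩ := hL
  obtain ⟨_, _, _, ur4, _⟩ := urr p hp K hE
  have h1 : ∀ x ∈ L, ‖x‖ ≤ 1 → Ur p x := fun x hx hx1 => ⟨hx1, F, hF, hFL x hx hx1⟩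
  refine ⟨h1, fun x hx hx0 => ?_⟩
  have hp1 : (1 : ℝ) < p := by exact_mod_cast hp.one_lt
  have hp0 : (0 : ℝ) < p := by linarith
  have np : ‖(p : K)‖ = (p : ℝ)⁻¹ := by
    have : Fact p.Prime := ⟨hp⟩
    have h2 := hE (p : ℚ)
    rw [padicNorm.padicNorm_p_of_prime] at h2
    push_cast at h2
    exact h2
  have hpK : (p : K) ≠ 0 := by exact_mod_cast hp.ne_zero
  have hxn : 0 < ‖x‖ := norm_pos_iff.2 hx0
  obtain ⟨k, hk1, hk2⟩ := exists_mem_Ioc_zpow hxn hp1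
  have hy : x * (p : K) ^ (k + 1) ∈ L := L.mul_mem hx (L.zpow_mem (by
    have : ((p : ℕ) : K) ∈ L := natCast_mem L p
    exact this) _)
  have hyn : ‖x * (p : K) ^ (k + 1)‖ = ‖x‖ * ((p : ℝ) ^ (k + 1))⁻¹ := by
    rw [norm_mul, norm_zpow, np, inv_zpow]
  have hpk : (0 : ℝ) < (p : ℝ) ^ (k + 1) := zpow_pos hp0 _
  have hy1 : ‖x * (p : K) ^ (k + 1)‖ ≤ 1 := by
    rw [hyn, ← div_eq_mul_inv, div_le_one hpk]
    exact hk2
  have hy2 : (p : ℝ)⁻¹ < ‖x * (p : K) ^ (k + 1)‖ := by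
    rw [hyn, ← div_eq_mul_inv, lt_div_iff₀ hpk]
    have e : (p : ℝ)⁻¹ * (p : ℝ) ^ (k + 1) = (p : ℝ) ^ k := by
      rw [zpow_add₀ hp0.ne', zpow_one]
      field_simp
    rw [e]
    exact hk1
  have hy3 : ‖x * (p : K) ^ (k + 1)‖ = 1 := by
    by_contra hne
    have := ur4 _ (h1 _ hy hy1) (lt_of_le_of_ne hy1 hne)
    exact absurd this (not_le.2 hy2)
  refine ⟨k + 1, ?_⟩
  rw [hyn, ← div_eq_mul_inv, div_eq_one_iff_eq hpk.ne'] at hy3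
  exact hy3

end Pool.Agent.ZPK.H75
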